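import Mathlib

/-!
Definitions for the decomposition of a finite measure into pieces generated by fair bits.
-/

namespace H60Mah

open MeasureTheory

/-- the sigma-algebra generated by the bits with index in `S` -/
def sig {Ω I : Type*} (b : I → Ω → Bool) (S : Set I) : MeasurableSpace Ω :=
  ⨆ j ∈ S, MeasurableSpace.comap (b j) ⊤

/-- `E` is relatively atomless over the sigma-algebra `B` -/
def RA {Ω : Type*} [m : MeasurableSpace Ω] (μ : Measure Ω) (B : MeasurableSpace Ω)
    (E : Set Ω) : Prop :=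
  ∀ E2 : Set Ω, MeasurableSet[m] E2 → E2 ⊆ E → 0 < μ E2 →
    ∃ F : Set Ω, MeasurableSet[m] F ∧ F ⊆ E2 ∧
      ∀ B' : Set Ω, MeasurableSet[B] B' → μ (symmDiff F (E2 ∩ B')) ≠ 0

/-- the bits are independent and fair on `E` -/
structure Fair {Ω : Type*} [MeasurableSpace Ω] (μ : Measure Ω) (E : Set Ω) {I : Type*}
    (b : I → Ω → Bool) : Prop where
  meas : ∀ i, Measurable (b i)
  fair : ∀ (s : Finset I) (v : I → Bool),
    μ (E ∩ {w | ∀ i ∈ s, b i w = v i}) = (2⁻¹ : ENNReal) ^ s.card * μ E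

/-- every measurable subset of `E` is approximated by sets generated by the bits -/
def Gen {Ω : Type*} [MeasurableSpace Ω] (μ : Measure Ω) (E : Set Ω) {I : Type*}
    (b : I → Ω → Bool) : Prop :=
  ∀ A : Set Ω, MeasurableSet A → A ⊆ E → ∀ ε : ENNReal, 0 < ε →
    ∃ A' : Set Ω, MeasurableSet[sig b Set.univ] A' ∧ μ (symmDiff A (E ∩ A')) ≤ ε

/-- `E` is separable: countably many measurable sets approximate all its measurable subsets -/
def Sep {Ω : Type*} [MeasurableSpace Ω] (μ : Measure Ω) (E : Set Ω) : Prop :=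
  ∃ D : ℕ → Set Ω, (∀ n, MeasurableSet (D n)) ∧
    ∀ A : Set Ω, MeasurableSet A → A ⊆ E → ∀ ε : ENNReal, 0 < ε →
      ∃ n, μ (symmDiff A (E ∩ D n)) ≤ ε

/-- an atom -/
def Atom {Ω : Type*} [MeasurableSpace Ω] (μ : Measure Ω) (E : Set Ω) : Prop :=
  MeasurableSet E ∧ 0 < μ E ∧
    ∀ F : Set Ω, MeasurableSet F → F ⊆ E → μ F = 0 ∨ μ (E \ F) = 0

/-- a piece generated by fair bits indexed by a countable-initial-segment well-order -/
def Good {Ω : Type*} [MeasurableSpace Ω] (μ : Measure Ω) (E : Set Ω) : Prop :=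
  MeasurableSet E ∧ ∃ (I : Type) (_ : LinearOrder I) (_ : WellFoundedLT I) (b : I → Ω → Bool),
    (∀ i : I, (Set.Iio i).Countable) ∧ Fair μ E b ∧ Gen μ E b

end H60Mah
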