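import Pool.Agent.Helper60.Mah.Total

/-!
Assembly of the basis theorem from the decomposition theorems.
-/

namespace H60Mah

open MeasureTheory H60Unc

/-- a good piece of positive measure, with a subadditive function on its index set -/
theorem piece_of_good {Ω : Type} [MeasurableSpace Ω] {μ : Measure Ω} {E : Set Ω}
    (h : Good μ E) (hpos : 0 < μ E) : ∃ pc : Piece μ, pc.E = E := by
  obtain ⟨hE, I, ord, wf, b, hc, hf, hg⟩ := h
  obtain ⟨ρ, ha, hb, hr⟩ := exists_rho hc
  exact ⟨{ E := E, hE := hE, pos := hpos, I := I, ord := ord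
           P := { rho := ρ, sub := ⟨ha, hb⟩, fin := fun x m => Set.finite_of_encard_le_coe (hr x m) }
           b := b, fair := hf, gen := hg }, rfl⟩

/-- the basis theorem from a decomposition into good pieces -/
theorem final_P (p : ENNReal) [Fact (1 ≤ p)] (hp : p ≠ ⊤) {C : ℝ} (hC : Core p.toReal C)
    {Ω : Type} [MeasurableSpace Ω] (μ : Measure Ω) [IsFiniteMeasure μ]
    (P : ℕ → Set Ω) (hP : ∀ n, Good μ (P n) ∨ P n = ∅)
    (hdisj : Pairwise (Function.onFun Disjoint P)) (hcov : μ (⋃ n, P n)ᶜ = 0) :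
    ∃ (J : Type) (e : J → Lp ℝ p μ), ∀ x : Lp ℝ p μ, ∃! a : J → ℝ,
      HasSum (fun i => a i • e i) x := by
  classical
  let N : Type := {n : ℕ // 0 < μ (P n)}
  have hgood : ∀ n : N, Good μ (P n) := by
    intro n
    rcases hP n with h | h
    · exact h
    · exfalso
      have := n.2
      rw [h, measure_empty] at this
      exact lt_irrefl _ this
  choose pc hpc using fun n : N => piece_of_good (hgood n) n.2
  have hd : Pairwise (Function.onFun Disjoint fun n => (pc n).E) := by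
    intro m n hmn
    simp only [Function.onFun, hpc]
    exact hdisj fun h => hmn (Subtype.ext h)
  have hc : μ (⋃ n, (pc n).E)ᶜ = 0 := by
    have h1 : (⋃ n, (pc n).E)ᶜ ⊆ (⋃ n, P n)ᶜ ∪ ⋃ n ∈ {n : ℕ | μ (P n) = 0}, P n := by
      intro w hw
      by_cases h : w ∈ ⋃ n, P n
      · right
        simp only [Set.mem_iUnion] at h ⊢
        obtain ⟨n, hn⟩ := h
        refine ⟨n, ?_, hn⟩
        by_contra hne
        have hpos : 0 < μ (P n) := pos_iff_ne_zero.mpr hne
        apply hw
        simp only [Set.mem_iUnion]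
        exact ⟨⟨n, hpos⟩, by rw [hpc]; exact hn⟩
      · left; exact h
    refine measure_mono_null h1 (measure_union_null hcov ?_)
    exact (measure_biUnion_null_iff (Set.to_countable _)).mpr fun n hn => hn
  exact ⟨JJ pc, XX pc p, basis pc hp hC hd hc⟩

theorem final_of (p : ENNReal) [Fact (1 ≤ p)] (hp : p ≠ ⊤) {C : ℝ} (hC : Core p.toReal C)
    {Ω : Type} [MeasurableSpace Ω] (μ : Measure Ω) [IsFiniteMeasure μ]
    (hsub : ∀ E, MeasurableSet E → 0 < μ E → ∃ E' ⊆ E, Good μ E' ∧ 0 < μ E')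
    (hexh : ∀ G : Set Ω → Prop, (∀ E, G E → MeasurableSet E) →
      (∀ E, MeasurableSet E → 0 < μ E → ∃ E' ⊆ E, G E' ∧ 0 < μ E') →
      ∃ P : ℕ → Set Ω, (∀ n, G (P n) ∨ P n = ∅) ∧ Pairwise (Function.onFun Disjoint P) ∧
        μ (⋃ n, P n)ᶜ = 0) :
    ∃ (J : Type) (e : J → Lp ℝ p μ), ∀ x : Lp ℝ p μ, ∃! a : J → ℝ,
      HasSum (fun i => a i • e i) x := by
  obtain ⟨P, hP, hdisj, hcov⟩ := hexh (fun E => Good μ E) (fun E h => h.1) hsub
  exact final_P p hp hC μ P hP hdisj hcov

end H60Mah
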