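import Pool.Agent.Helper60.Unc.Span
import Pool.Agent.Helper60.Unc.Rho
import Pool.Agent.Helper60.Mah.Defs

/-!
The system carried by a piece with independent fair bits, and the multiplier inequality there.
-/

namespace H60Mah

open MeasureTheory Finset H60Unc

/-- the finite inequality, for one exponent, as a hypothesis -/
def Core (p C : ℝ) : Prop :=
  0 < C ∧ ∀ (V : Type) [LinearOrder V] [Fintype V] (rho : V → V → ℕ), Sub2 rho →
    ∀ d d' : Dat rho, |d'.al0| ≤ |d.al0| → (∀ x, |d'.al x| ≤ |d.al x|) →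
      (∀ x a w, |d'.c x a w| ≤ |d.c x a w|) →
        ex (fun w => |d'.F w| ^ p) ≤ C * ex (fun w => |d.F w| ^ p)

variable {Ω : Type*} [MeasurableSpace Ω] {μ : Measure Ω}

theorem piece_integral [IsFiniteMeasure μ] {I : Type*} [DecidableEq I] {b : I → Ω → Bool}
    {E : Set Ω} (hE : MeasurableSet E) (hf : Fair μ E b) (s : Finset I) (g : (s → Bool) → ℝ) :
    ∫ w in E, g (fun i : s => b i w) ∂μ = μ.real E * ex g := by
  classical
  have hB : Measurable (fun w => (fun i : s => b i w : s → Bool)) :=
    measurable_pi_lambda _ fun i => hf.meas i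
  have h1 : ∫ w in E, g (fun i : s => b i w) ∂μ
      = ∫ v, g v ∂((μ.restrict E).map (fun w => (fun i : s => b i w : s → Bool))) := by
    rw [integral_map hB.aemeasurable (measurable_of_finite g).aestronglyMeasurable]
  rw [h1, integral_fintype Integrable.of_finite]
  have h2 : ∀ v : s → Bool, ((μ.restrict E).map (fun w => (fun i : s => b i w : s → Bool))).real {v}
      = (Fintype.card (s → Bool) : ℝ)⁻¹ * μ.real E := by
    intro v
    rw [measureReal_def, Measure.map_apply hB (measurableSet_singleton v),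
      Measure.restrict_apply (hB (measurableSet_singleton v))]
    have h3 : (fun w => (fun i : s => b i w : s → Bool)) ⁻¹' {v} ∩ E
        = E ∩ {w | ∀ i ∈ s, b i w = (fun i => if h : i ∈ s then v ⟨i, h⟩ else false) i} := by
      ext w
      simp only [Set.mem_inter_iff, Set.mem_preimage, Set.mem_singleton_iff]
      constructor
      · rintro ⟨h4, h5⟩
        refine ⟨h5, fun i hi => ?_⟩
        simp only [hi, dif_pos]
        rw [← h4]
      · rintro ⟨h4, h5⟩
        refine ⟨?_, h4⟩
        funext i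
        have := h5 i i.2
        simpa using this
    rw [h3, hf.fair, ENNReal.toReal_mul, measureReal_def]
    congr 1
    simp only [ENNReal.toReal_pow, ENNReal.toReal_inv, ENNReal.toReal_ofNat, Fintype.card_fun,
      Fintype.card_bool, Fintype.card_coe]
    push_cast
    rw [inv_pow]
  simp only [h2, smul_eq_mul]
  rw [ex, Finset.mul_sum, Finset.mul_sum]
  refine Finset.sum_congr rfl fun v _ => ?_
  ring

theorem dat_dom {I : Type*} [LinearOrder I] {P : Pack I} (s : Finset I) (d : Finset (Idx P))
    (hd : ∀ i ∈ d, supp i ⊆ s) (al be : Idx P → ℝ) (hab : ∀ i, |be i| ≤ |al i|) :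
    |(dat s d be).al0| ≤ |(dat s d al).al0| ∧ (∀ x, |(dat s d be).al x| ≤ |(dat s d al).al x|) ∧
      ∀ x a w, |(dat s d be).c x a w| ≤ |(dat s d al).c x a w| := by
  have hsq : ∀ i, be i ^ 2 ≤ al i ^ 2 := fun i => sq_le_sq.mpr (hab i)
  have gen : ∀ (f : Idx P → ℝ), (∀ i ∈ d, ∀ j ∈ d, i ≠ j → f i * f j = 0) →
      |∑ i ∈ d, be i * f i| ≤ |∑ i ∈ d, al i * f i| := by
    intro f hf
    rw [← sq_le_sq, sq_sum_disj, sq_sum_disj]
    · refine Finset.sum_le_sum fun i _ => ?_
      rw [mul_pow, mul_pow]
      exact mul_le_mul_of_nonneg_right (hsq i) (sq_nonneg _)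
    · intro i hi j hj hij
      have := hf i hi j hj hij
      calc al i * f i * (al j * f j) = al i * al j * (f i * f j) := by ring
        _ = 0 := by rw [this, mul_zero]
    · intro i hi j hj hij
      have := hf i hi j hj hij
      calc be i * f i * (be j * f j) = be i * be j * (f i * f j) := by ring
        _ = 0 := by rw [this, mul_zero]
  refine ⟨gen _ fun i _ j _ h => a0_disj i j h, fun x => gen _ fun i _ j _ h => a1_disj s x i j h,
    fun x a w => gen _ fun i hi j hj h => a2_disj s x a w i j (hd i hi) (hd j hj) h⟩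

theorem piece_ineq [IsFiniteMeasure μ] {I : Type} [LinearOrder I] (P : Pack I) {b : I → Ω → Bool}
    {E : Set Ω} (hE : MeasurableSet E) (hf : Fair μ E b) {p C : ℝ} (hC : Core p C)
    (d : Finset (Idx P)) (al be : Idx P → ℝ) (hab : ∀ i, |be i| ≤ |al i|) :
    ∫ w in E, |∑ i ∈ d, be i * e i (fun k => b k w)| ^ p ∂μ
      ≤ C * ∫ w in E, |∑ i ∈ d, al i * e i (fun k => b k w)| ^ p ∂μ := by
  classical
  set s : Finset I := d.biUnion supp with hs
  have hd : ∀ i ∈ d, supp i ⊆ s := fun i hi => Finset.subset_biUnion_of_mem supp hi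
  have h1 : ∀ ga : Idx P → ℝ, ∫ w in E, |∑ i ∈ d, ga i * e i (fun k => b k w)| ^ p ∂μ
      = μ.real E * ex (fun w => |(dat s d ga).F w| ^ p) := by
    intro ga
    rw [← piece_integral hE hf s (fun w => |(dat s d ga).F w| ^ p)]
    refine integral_congr_ae (Filter.Eventually.of_forall fun w => ?_)
    have h2 := dat_F s d hd ga (fun k => b k w)
    have h3 : s.restrict (fun k => b k w) = fun i : s => b i w := rfl
    rw [h3] at h2
    simp only [h2]
  rw [h1, h1]
  obtain ⟨h4, h5, h6⟩ := dat_dom s d hd al be hab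
  have h7 := hC.2 s (rhoV P s) (sub_rhoV P s) (dat s d al) (dat s d be) h4 h5 h6
  calc μ.real E * ex (fun w => |(dat s d be).F w| ^ p)
      ≤ μ.real E * (C * ex (fun w => |(dat s d al).F w| ^ p)) :=
        mul_le_mul_of_nonneg_left h7 measureReal_nonneg
    _ = _ := by ring

end H60Mah
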