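import Pool.Agent.Helper60.Mah.Final
import Pool.Agent.H763.Mah
import Pool.Agent.Helper60.Unc.Weight

/-!
The basis theorem for finite measures of density at most aleph one, from the multiplier
inequality.
-/

namespace H60Mah

open MeasureTheory H60Unc

theorem basis_of_core (p : ENNReal) [Fact (1 ≤ p)] (hp : p ≠ ⊤) {C : ℝ} (hC : Core p.toReal C)
    (Ω : Type) [MeasurableSpace Ω] (μ : Measure Ω) (hμ : IsFiniteMeasure μ)
    (hD : ∃ D : Set (Lp ℝ p μ), Dense D ∧ Cardinal.mk ↥D ≤ Cardinal.aleph 1) :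
    ∃ (J : Type) (e : J → Lp ℝ p μ), ∀ x : Lp ℝ p μ, ∃! a : J → ℝ,
      HasSum (fun i => a i • e i) x := by
  haveI := hμ
  obtain ⟨D, hd, hc⟩ := hD
  obtain ⟨P, hP, hdisj, hcov⟩ := decomposition p hp μ D hd hc
  exact final_P p hp hC μ P hP hdisj hcov

/-- the whole statement from the majorant weights -/
theorem all_of_major (hmaj : ∀ r : ℝ, 1 < r → ∃ K, Major r K) :
    ∀ (p : ENNReal) [Fact (1 ≤ p)], 1 < p → p ≠ 2 → p ≠ ⊤ →
    ∀ (Ω : Type) [MeasurableSpace Ω] (μ : Measure Ω), IsFiniteMeasure μ →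
      (∃ D : Set (Lp ℝ p μ), Dense D ∧ Cardinal.mk ↥D ≤ Cardinal.aleph 1) →
      ∃ (I : Type) (e : I → Lp ℝ p μ),
        ∀ x : Lp ℝ p μ, ∃! a : I → ℝ, HasSum (fun i => a i • e i) x := by
  intro p _ hp1 hp2 hpt Ω _ μ hμ hD
  have h1 : 1 < p.toReal := by
    rw [← ENNReal.toReal_one]
    exact (ENNReal.toReal_lt_toReal ENNReal.one_ne_top hpt).mpr hp1
  have h2 : p.toReal ≠ 2 := by
    intro h
    apply hp2
    rw [← ENNReal.ofReal_toReal hpt, h]
    norm_num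
  obtain ⟨C, hC⟩ := core_all hmaj p.toReal h1 h2
  exact basis_of_core p hpt hC Ω μ hμ hD

end H60Mah
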