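import Pool.Agent.Helper60.Mah.End

/-!
The multiplier inequality at the exponents four and four thirds.
-/

namespace H60Mah

open MeasureTheory H60Unc

theorem abs_rpow_four (x : ℝ) : |x| ^ (4 : ℝ) = x ^ 4 := by
  have h : |x| ^ (4 : ℝ) = |x| ^ (4 : ℕ) := by
    rw [← Real.rpow_natCast]; norm_num
  rw [h]
  calc |x| ^ 4 = (|x| ^ 2) ^ 2 := by ring
    _ = x ^ 4 := by rw [sq_abs]; ring

theorem core_four : Core 4 ((68 * 262148) * (68 * 262148)) := by
  refine ⟨by norm_num, ?_⟩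
  intro V _ _ rho hrho d d' h0 h1 h2
  have e : ∀ d : Dat rho, (fun w => |d.F w| ^ (4 : ℝ)) = fun w => d.F w ^ 4 := by
    intro d; funext w; exact abs_rpow_four _
  rw [e, e]
  have a1 := d'.F4_le hrho
  have a2 := d.S2_le hrho
  have a3 : ex (fun w => d'.S w ^ 2) ≤ ex (fun w => d.S w ^ 2) := by
    refine ex_mono fun w => ?_
    have hS : ∀ d : Dat rho, 0 ≤ d.S w := by
      intro d
      have : d.S w = d.al0 ^ 2 + ∑ x, (d.al x ^ 2 + ∑ a, d.c x a w ^ 2) := rfl
      rw [this]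
      exact add_nonneg (sq_nonneg _) (Finset.sum_nonneg fun x _ =>
        add_nonneg (sq_nonneg _) (Finset.sum_nonneg fun a _ => sq_nonneg _))
    have hle : d'.S w ≤ d.S w := by
      have i1 : d.S w = d.al0 ^ 2 + ∑ x, (d.al x ^ 2 + ∑ a, d.c x a w ^ 2) := rfl
      have i2 : d'.S w = d'.al0 ^ 2 + ∑ x, (d'.al x ^ 2 + ∑ a, d'.c x a w ^ 2) := rfl
      rw [i1, i2]
      refine add_le_add (sq_le_sq.mpr h0) (Finset.sum_le_sum fun x _ =>
        add_le_add (sq_le_sq.mpr (h1 x)) (Finset.sum_le_sum fun a _ => sq_le_sq.mpr (h2 x a w)))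
    exact pow_le_pow_left₀ (hS d') hle 2
  nlinarith

theorem core_four_thirds : ∃ C, Core (4 / 3) C := by
  refine ⟨((68 * 262148) * (68 * 262148)) ^ ((4 / 3 : ℝ) / 4), by positivity, ?_⟩
  intro V _ _ rho hrho d d' h0 h1 h2
  have hconj : (4 / 3 : ℝ).HolderConjugate 4 := by
    rw [Real.holderConjugate_iff]
    norm_num
  exact dual_ineq hconj (by norm_num)
    (fun d d' => core_four.2 V rho hrho d d') d d' h0 h1 h2

end H60Mah
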