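import Pool.Agent.Helper60.Mah.Piece
import Pool.Agent.Helper60.Unc.Expand
import Pool.Agent.Helper60.Unc.LpPart

/-!
The union of the systems of countably many pieces in the space of p-integrable functions.
-/

namespace H60Mah

open MeasureTheory Finset H60Unc

variable {Ω : Type} [MeasurableSpace Ω]

/-- a piece with its bits -/
structure Piece (μ : Measure Ω) where
  E : Set Ω
  hE : MeasurableSet E
  pos : 0 < μ E
  I : Type
  ord : LinearOrder I
  P : Pack I
  b : I → Ω → Bool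
  fair : Fair μ E b
  gen : Gen μ E b

attribute [instance] Piece.ord

variable {μ : Measure Ω} {N : Type} (pc : N → Piece μ)

/-- the index set of the union of the systems -/
abbrev JJ := Σ n : N, Idx (pc n).P

/-- the functions -/
noncomputable def fn (j : JJ pc) (w : Ω) : ℝ :=
  (pc j.1).E.indicator (fun w => e j.2 (fun k => (pc j.1).b k w)) w

theorem code_meas (n : N) : Measurable (fun w => (fun k => (pc n).b k w : (pc n).I → Bool)) :=
  measurable_pi_lambda _ fun i => (pc n).fair.meas i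

theorem fn_meas (j : JJ pc) : Measurable (fn pc j) :=
  ((e_meas j.2).comp (code_meas pc j.1)).indicator (pc j.1).hE

theorem fn_abs (j : JJ pc) (w : Ω) : |fn pc j w| ≤ 1 := by
  unfold fn
  by_cases h : w ∈ (pc j.1).E
  · rw [Set.indicator_of_mem h]; exact abs_e_le _ _
  · rw [Set.indicator_of_notMem h]; simp

variable [IsFiniteMeasure μ]

theorem fn_memLp (j : JJ pc) (p : ENNReal) : MemLp (fn pc j) p μ :=
  MemLp.of_bound (fn_meas pc j).aestronglyMeasurable 1
    (Filter.Eventually.of_forall fun w => by rw [Real.norm_eq_abs]; exact fn_abs pc j w)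

/-- the elements of the system -/
noncomputable def XX (p : ENNReal) (j : JJ pc) : Lp ℝ p μ := (fn_memLp pc j p).toLp _

theorem XX_coe (p : ENNReal) (j : JJ pc) : (XX pc p j : Ω → ℝ) =ᵐ[μ] fn pc j :=
  MemLp.coeFn_toLp _

theorem sum_coe' (p : ENNReal) (d : Finset (JJ pc)) (a : JJ pc → ℝ) :
    ((∑ j ∈ d, a j • XX pc p j : Lp ℝ p μ) : Ω → ℝ) =ᵐ[μ] fun w => ∑ j ∈ d, a j * fn pc j w := by
  classical
  induction d using Finset.induction_on with
  | empty =>
    simp only [Finset.sum_empty]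
    exact Lp.coeFn_zero _ _ _
  | insert i d hi ih =>
    simp only [Finset.sum_insert hi]
    filter_upwards [Lp.coeFn_add (a i • XX pc p i) (∑ i ∈ d, a i • XX pc p i), ih,
      Lp.coeFn_smul (a i) (XX pc p i), XX_coe pc p i] with w h1 h2 h3 h4
    rw [h1, Pi.add_apply, h2, h3, Pi.smul_apply, h4, smul_eq_mul]

theorem norm_rpow (p : ENNReal) (hp0 : p ≠ 0) (hp : p ≠ ⊤) (f : Lp ℝ p μ) (g : Ω → ℝ)
    (h : f =ᵐ[μ] g) : ‖f‖ ^ p.toReal = ∫ w, |g w| ^ p.toReal ∂μ := by
  have h1 : ∫ w, |g w| ^ p.toReal ∂μ = ∫ w, ‖f w‖ ^ p.toReal ∂μ :=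
    integral_congr_ae (h.mono fun w hw => by simp only [hw, Real.norm_eq_abs])
  have hpos : 0 ≤ ∫ w, ‖f w‖ ^ p.toReal ∂μ := integral_nonneg fun w => by positivity
  have hpt : p.toReal ≠ 0 := (ENNReal.toReal_pos hp0 hp).ne'
  rw [h1, Lp.norm_def, (Lp.memLp f).eLpNorm_eq_integral_rpow_norm hp0 hp]
  rw [ENNReal.toReal_ofReal (Real.rpow_nonneg hpos _), ← Real.rpow_mul hpos,
    inv_mul_cancel₀ hpt, Real.rpow_one]

theorem pointwise {pr : ℝ} (hpr : 0 < pr)
    (hdisj : Pairwise (Function.onFun Disjoint fun n => (pc n).E)) [DecidableEq N]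
    (d : Finset (JJ pc)) (a : JJ pc → ℝ) (w : Ω) :
    |∑ j ∈ d, a j * fn pc j w| ^ pr
      = ∑ n ∈ d.image Sigma.fst, (pc n).E.indicator (fun w =>
          |∑ i ∈ d.preimage (Sigma.mk n) sigma_mk_injective.injOn,
            a ⟨n, i⟩ * e i (fun k => (pc n).b k w)| ^ pr) w := by
  have h0 : ∑ j ∈ d, a j * fn pc j w = ∑ n ∈ d.image Sigma.fst,
      ∑ i ∈ d.preimage (Sigma.mk n) sigma_mk_injective.injOn, a ⟨n, i⟩ * fn pc ⟨n, i⟩ w := by
    conv_lhs => rw [← Finset.sigma_image_fst_preimage_mk d]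
    rw [Finset.sum_sigma]
  by_cases hw : ∃ n ∈ d.image Sigma.fst, w ∈ (pc n).E
  · obtain ⟨n, hn, hwn⟩ := hw
    have hother : ∀ m, m ≠ n → w ∉ (pc m).E := fun m hm hwm =>
      Set.disjoint_left.mp (hdisj hm) hwm hwn
    rw [h0, Finset.sum_eq_single n, Finset.sum_eq_single n]
    · rw [Set.indicator_of_mem hwn]
      congr 2
      refine Finset.sum_congr rfl fun i _ => ?_
      unfold fn
      rw [Set.indicator_of_mem hwn]
    · intro m _ hm
      rw [Set.indicator_of_notMem (hother m hm)]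
    · intro h; exact absurd hn h
    · intro m _ hm
      refine Finset.sum_eq_zero fun i _ => ?_
      unfold fn
      rw [Set.indicator_of_notMem (hother m hm), mul_zero]
    · intro h; exact absurd hn h
  · push Not at hw
    rw [h0, Finset.sum_eq_zero, Finset.sum_eq_zero, abs_zero, Real.zero_rpow hpr.ne']
    · intro n hn
      rw [Set.indicator_of_notMem (hw n hn)]
    · intro n hn
      refine Finset.sum_eq_zero fun i _ => ?_
      unfold fn
      rw [Set.indicator_of_notMem (hw n hn), mul_zero]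

theorem comb_int {p : ENNReal} (hp0 : p ≠ 0) (hp : p ≠ ⊤) (n : N)
    (d : Finset (Idx (pc n).P)) (a : Idx (pc n).P → ℝ) :
    Integrable (fun w => |∑ i ∈ d, a i * e i (fun k => (pc n).b k w)| ^ p.toReal) μ := by
  have h : MemLp (fun w => ∑ i ∈ d, a i * e i (fun k => (pc n).b k w)) p μ := by
    refine memLp_finsetSum d fun i _ => MemLp.const_mul ?_ (a i)
    refine MemLp.of_bound ((e_meas i).comp (code_meas pc n)).aestronglyMeasurable 1 ?_
    exact Filter.Eventually.of_forall fun w => by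
      rw [Real.norm_eq_abs]; exact abs_e_le _ _
  exact h.integrable_norm_rpow hp0 hp

theorem global_ineq {p : ENNReal} (hp0 : p ≠ 0) (hp : p ≠ ⊤) {C : ℝ} (hC : Core p.toReal C)
    (hdisj : Pairwise (Function.onFun Disjoint fun n => (pc n).E))
    (d : Finset (JJ pc)) (a ep : JJ pc → ℝ) (hep : ∀ j, |ep j| ≤ 1) :
    ∫ w, |∑ j ∈ d, (ep j * a j) * fn pc j w| ^ p.toReal ∂μ
      ≤ C * ∫ w, |∑ j ∈ d, a j * fn pc j w| ^ p.toReal ∂μ := by
  classical
  have hpr : 0 < p.toReal := ENNReal.toReal_pos hp0 hp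
  have h1 : ∀ c : JJ pc → ℝ, ∫ w, |∑ j ∈ d, c j * fn pc j w| ^ p.toReal ∂μ
      = ∑ n ∈ d.image Sigma.fst, ∫ w in (pc n).E,
          |∑ i ∈ d.preimage (Sigma.mk n) sigma_mk_injective.injOn,
            c ⟨n, i⟩ * e i (fun k => (pc n).b k w)| ^ p.toReal ∂μ := by
    intro c
    simp only [pointwise pc hpr hdisj d c]
    rw [integral_finsetSum]
    · refine Finset.sum_congr rfl fun n _ => ?_
      rw [integral_indicator (pc n).hE]
    · intro n _
      exact (comb_int pc hp0 hp n _ _).indicator (pc n).hE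
  rw [h1 (fun j => ep j * a j), h1 a, Finset.mul_sum]
  refine Finset.sum_le_sum fun n _ => ?_
  refine piece_ineq (pc n).P (pc n).hE (pc n).fair hC _ (fun i => a ⟨n, i⟩)
    (fun i => ep ⟨n, i⟩ * a ⟨n, i⟩) fun i => ?_
  rw [abs_mul]
  exact mul_le_of_le_one_left (abs_nonneg _) (hep _)

theorem global_norm {p : ENNReal} [Fact (1 ≤ p)] (hp : p ≠ ⊤) {C : ℝ} (hC : Core p.toReal C)
    (hdisj : Pairwise (Function.onFun Disjoint fun n => (pc n).E))
    (d : Finset (JJ pc)) (a ep : JJ pc → ℝ) (hep : ∀ j, |ep j| ≤ 1) :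
    ‖∑ j ∈ d, (ep j * a j) • XX pc p j‖ ≤ C ^ (p.toReal)⁻¹ * ‖∑ j ∈ d, a j • XX pc p j‖ := by
  have hp0 : p ≠ 0 := (lt_of_lt_of_le zero_lt_one Fact.out).ne'
  have hpr : 0 < p.toReal := ENNReal.toReal_pos hp0 hp
  have h1 := norm_rpow p hp0 hp _ _ (sum_coe' pc p d (fun j => ep j * a j))
  have h2 := norm_rpow p hp0 hp _ _ (sum_coe' pc p d a)
  have h3 := global_ineq pc hp0 hp hC hdisj d a ep hep
  rw [← h1, ← h2] at h3
  have hCn : 0 ≤ C := hC.1.le
  rw [← Real.rpow_le_rpow_iff (norm_nonneg _)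
    (mul_nonneg (Real.rpow_nonneg hCn _) (norm_nonneg _)) hpr,
    Real.mul_rpow (Real.rpow_nonneg hCn _) (norm_nonneg _), ← Real.rpow_mul hCn,
    inv_mul_cancel₀ hpr.ne', Real.rpow_one]
  exact h3

theorem XX_ne_zero {p : ENNReal} (hp0 : p ≠ 0) (j : JJ pc) : XX pc p j ≠ 0 := by
  classical
  intro h
  have h1 := XX_coe pc p j
  rw [h] at h1
  have h2 := (Lp.coeFn_zero ℝ p μ).symm.trans h1
  obtain ⟨w0, hw0⟩ := e_witness j.2
  have h3 : μ {w | ¬ ((0 : Ω → ℝ) w = fn pc j w)} = 0 := h2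
  have h4 : ((pc j.1).E ∩ {w | ∀ i ∈ supp j.2, (pc j.1).b i w = w0 i})
      ⊆ {w | ¬ ((0 : Ω → ℝ) w = fn pc j w)} := by
    rintro w ⟨hwE, hw⟩ hcon
    have h5 : fn pc j w = e j.2 w0 := by
      unfold fn
      rw [Set.indicator_of_mem hwE]
      exact e_dep j.2 _ _ fun u hu => hw u hu
    rw [h5] at hcon
    exact hw0 hcon.symm
  have h7 := measure_mono h4 (μ := μ)
  rw [h3, (pc j.1).fair.fair] at h7
  have h8 : (2⁻¹ : ENNReal) ^ (supp j.2).card * μ (pc j.1).E ≠ 0 := by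
    refine mul_ne_zero (pow_ne_zero _ (by simp)) (pc j.1).pos.ne'
  exact h8 (le_antisymm h7 (zero_le))

end H60Mah
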