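import Pool.Agent.Helper60.Mah.Global
import Pool.Agent.Helper60.Unc.Dense

/-!
Completeness of the union of the systems of the pieces, and the basis statement.
-/

namespace H60Mah

open MeasureTheory Finset H60Unc

variable {Ω : Type} [MeasurableSpace Ω] {μ : Measure Ω} [IsFiniteMeasure μ]

theorem approx {p : ENNReal} [Fact (1 ≤ p)] (hp : p ≠ ⊤)
    (Q : Submodule ℝ (Lp ℝ p μ)) (hQ : IsClosed (Q : Set (Lp ℝ p μ)))
    {A : Set Ω} (hA : MeasurableSet A)
    (h : ∀ ε : ENNReal, 0 < ε → ∃ B : Set Ω, ∃ hB : MeasurableSet B,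
      indicatorConstLp p hB (measure_ne_top μ B) (1 : ℝ) ∈ Q ∧ μ (symmDiff B A) ≤ ε) :
    indicatorConstLp p hA (measure_ne_top μ A) (1 : ℝ) ∈ Q := by
  choose! B hB hBQ hBm using h
  have hpos : ∀ n : ℕ, (0 : ENNReal) < ((n : ENNReal) + 1)⁻¹ := fun n =>
    ENNReal.inv_pos.mpr (ENNReal.add_ne_top.mpr ⟨ENNReal.natCast_ne_top n, ENNReal.one_ne_top⟩)
  have hlim : Filter.Tendsto (fun n : ℕ => indicatorConstLp p (hB _ (hpos n))
      (measure_ne_top μ (B ((n : ENNReal) + 1)⁻¹)) (1 : ℝ)) Filter.atTop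
      (nhds (indicatorConstLp p hA (measure_ne_top μ A) (1 : ℝ))) := by
    apply tendsto_indicatorConstLp_set hp
    have h1 : Filter.Tendsto (fun n : ℕ => ((n : ENNReal) + 1)⁻¹) Filter.atTop (nhds 0) := by
      have h2 := ENNReal.tendsto_inv_nat_nhds_zero
      have h3 := h2.comp (Filter.tendsto_add_atTop_nat 1)
      refine h3.congr fun n => ?_
      simp only [Function.comp]
      push_cast
      rfl
    exact tendsto_of_tendsto_of_tendsto_of_le_of_le tendsto_const_nhds h1
      (fun n => zero_le) (fun n => hBm _ (hpos n))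
  exact hQ.mem_of_tendsto hlim (Filter.Eventually.of_forall fun n => hBQ _ (hpos n))

theorem ind_diff {p : ENNReal} (Q : Submodule ℝ (Lp ℝ p μ))
    {A B : Set Ω} (hA : MeasurableSet A) (hB : MeasurableSet B) (hBA : B ⊆ A)
    (hD : MeasurableSet (A \ B))
    (h1 : indicatorConstLp p hA (measure_ne_top μ A) (1 : ℝ) ∈ Q)
    (h2 : indicatorConstLp p hB (measure_ne_top μ B) (1 : ℝ) ∈ Q) :
    indicatorConstLp p hD (measure_ne_top μ (A \ B)) (1 : ℝ) ∈ Q := by
  have h3 : indicatorConstLp p hD (measure_ne_top μ (A \ B)) (1 : ℝ)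
      = indicatorConstLp p hA (measure_ne_top μ A) (1 : ℝ)
        - indicatorConstLp p hB (measure_ne_top μ B) (1 : ℝ) := by
    apply Lp.ext
    filter_upwards [indicatorConstLp_coeFn (p := p) (hs := hD)
      (hμs := measure_ne_top μ (A \ B)) (c := (1 : ℝ)),
      indicatorConstLp_coeFn (p := p) (hs := hA)
      (hμs := measure_ne_top μ A) (c := (1 : ℝ)),
      indicatorConstLp_coeFn (p := p) (hs := hB)
      (hμs := measure_ne_top μ B) (c := (1 : ℝ)),
      Lp.coeFn_sub (indicatorConstLp p hA (measure_ne_top μ A) (1 : ℝ))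
        (indicatorConstLp p hB (measure_ne_top μ B) (1 : ℝ))] with w g1 g2 g3 g4
    rw [g1, g4, Pi.sub_apply, g2, g3]
    by_cases hw : w ∈ B
    · simp [hw, hBA hw]
    · by_cases hw2 : w ∈ A
      · simp [hw, hw2]
      · simp [hw, hw2]
  rw [h3]
  exact Q.sub_mem h1 h2

theorem ind_union {p : ENNReal} (Q : Submodule ℝ (Lp ℝ p μ))
    {A B : Set Ω} (hA : MeasurableSet A) (hB : MeasurableSet B) (hAB : Disjoint A B)
    (hD : MeasurableSet (A ∪ B))
    (h1 : indicatorConstLp p hA (measure_ne_top μ A) (1 : ℝ) ∈ Q)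
    (h2 : indicatorConstLp p hB (measure_ne_top μ B) (1 : ℝ) ∈ Q) :
    indicatorConstLp p hD (measure_ne_top μ (A ∪ B)) (1 : ℝ) ∈ Q := by
  have h3 : indicatorConstLp p hD (measure_ne_top μ (A ∪ B)) (1 : ℝ)
      = indicatorConstLp p hA (measure_ne_top μ A) (1 : ℝ)
        + indicatorConstLp p hB (measure_ne_top μ B) (1 : ℝ) := by
    apply Lp.ext
    filter_upwards [indicatorConstLp_coeFn (p := p) (hs := hD)
      (hμs := measure_ne_top μ (A ∪ B)) (c := (1 : ℝ)),
      indicatorConstLp_coeFn (p := p) (hs := hA)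
      (hμs := measure_ne_top μ A) (c := (1 : ℝ)),
      indicatorConstLp_coeFn (p := p) (hs := hB)
      (hμs := measure_ne_top μ B) (c := (1 : ℝ)),
      Lp.coeFn_add (indicatorConstLp p hA (measure_ne_top μ A) (1 : ℝ))
        (indicatorConstLp p hB (measure_ne_top μ B) (1 : ℝ))] with w g1 g2 g3 g4
    rw [g1, g4, Pi.add_apply, g2, g3]
    by_cases hw : w ∈ A
    · have : w ∉ B := fun h => Set.disjoint_left.mp hAB hw h
      simp [hw, this]
    · by_cases hw2 : w ∈ B
      · simp [hw, hw2]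
      · simp [hw, hw2]
  rw [h3]
  exact Q.add_mem h1 h2

/-- countable disjoint unions -/
theorem ind_iUnion {p : ENNReal} [Fact (1 ≤ p)] (hp : p ≠ ⊤)
    (Q : Submodule ℝ (Lp ℝ p μ)) (hQ : IsClosed (Q : Set (Lp ℝ p μ)))
    {N : Type*} [Countable N] (f : N → Set Ω) (hf : ∀ n, MeasurableSet (f n))
    (hdisj : Pairwise (Function.onFun Disjoint f))
    (h : ∀ n, indicatorConstLp p (hf n) (measure_ne_top μ (f n)) (1 : ℝ) ∈ Q)
    {A : Set Ω} (hA : MeasurableSet A) (hAf : μ (symmDiff (⋃ n, f n) A) = 0) :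
    indicatorConstLp p hA (measure_ne_top μ A) (1 : ℝ) ∈ Q := by
  classical
  have hfin : ∀ F : Finset N, ∀ hU : MeasurableSet (⋃ k ∈ F, f k),
      indicatorConstLp p hU (measure_ne_top μ _) (1 : ℝ) ∈ Q := by
    intro F
    induction F using Finset.induction_on with
    | empty =>
      intro hU
      have : indicatorConstLp p hU (measure_ne_top μ _) (1 : ℝ) = 0 := by
        apply Lp.ext
        refine (indicatorConstLp_coeFn.trans (Filter.Eventually.of_forall fun w => ?_)).trans
          (Lp.coeFn_zero ℝ p μ).symm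
        simp
      rw [this]
      exact Q.zero_mem
    | insert i F hi ih =>
      intro hU
      have hU' : MeasurableSet (⋃ k ∈ F, f k) :=
        Finset.measurableSet_biUnion _ fun k _ => hf k
      have hset : (⋃ k ∈ insert i F, f k) = f i ∪ ⋃ k ∈ F, f k := by
        rw [Finset.set_biUnion_insert]
      have hd : Disjoint (f i) (⋃ k ∈ F, f k) := by
        rw [Set.disjoint_iUnion₂_right]
        intro k hk
        exact hdisj (by rintro rfl; exact hi hk)
      have h1 := ind_union Q (hf i) hU' hd ((hf i).union hU') (h i) (ih hU')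
      convert h1 using 2
  refine approx hp Q hQ hA fun ε hε => ?_
  have htot : μ (⋃ n, f n) = ∑' n, μ (f n) := measure_iUnion hdisj hf
  by_cases hzero : μ (⋃ n, f n) ≤ ε
  · refine ⟨∅, MeasurableSet.empty, ?_, ?_⟩
    · have := hfin ∅ (by simp)
      convert this using 2
      simp
    · have h2 : symmDiff ∅ A ⊆ symmDiff (⋃ n, f n) A ∪ ⋃ n, f n := by
        intro w hw
        simp only [Set.mem_symmDiff, Set.mem_empty_iff_false, false_and, not_false_eq_true,
          and_true, false_or, Set.mem_union] at hw ⊢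
        by_cases h3 : w ∈ ⋃ n, f n
        · exact Or.inr h3
        · exact Or.inl (Or.inr ⟨hw, h3⟩)
      refine (measure_mono h2).trans ((measure_union_le _ _).trans ?_)
      rw [hAf, zero_add]
      exact hzero
  · push Not at hzero
    have hlt : μ (⋃ n, f n) - ε < ∑' n, μ (f n) := by
      rw [← htot]
      exact ENNReal.sub_lt_self (measure_ne_top μ _) (lt_of_le_of_lt (zero_le) hzero).ne' hε.ne'
    rw [ENNReal.tsum_eq_iSup_sum, lt_iSup_iff] at hlt
    obtain ⟨F, hF⟩ := hlt
    have hU : MeasurableSet (⋃ k ∈ F, f k) := Finset.measurableSet_biUnion _ fun k _ => hf k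
    refine ⟨⋃ k ∈ F, f k, hU, hfin F hU, ?_⟩
    have hsub : (⋃ k ∈ F, f k) ⊆ ⋃ n, f n := by
      intro w hw
      simp only [Set.mem_iUnion] at hw ⊢
      obtain ⟨k, _, hk⟩ := hw
      exact ⟨k, hk⟩
    have hFm : μ (⋃ k ∈ F, f k) = ∑ k ∈ F, μ (f k) :=
      measure_biUnion_finset (fun i _ j _ hij => hdisj hij) (fun k _ => hf k)
    have h2 : symmDiff (⋃ k ∈ F, f k) A ⊆ symmDiff (⋃ n, f n) A ∪ ((⋃ n, f n) \ ⋃ k ∈ F, f k) := by
      intro w hw
      simp only [Set.mem_symmDiff, Set.mem_union, Set.mem_sdiff] at hw ⊢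
      rcases hw with ⟨h3, h4⟩ | ⟨h3, h4⟩
      · exact Or.inl (Or.inl ⟨hsub h3, h4⟩)
      · by_cases h5 : w ∈ ⋃ n, f n
        · exact Or.inr ⟨h5, h4⟩
        · exact Or.inl (Or.inr ⟨h3, h5⟩)
    refine (measure_mono h2).trans ((measure_union_le _ _).trans ?_)
    rw [hAf, zero_add, measure_sdiff hsub hU.nullMeasurableSet (measure_ne_top μ _), hFm]
    rw [tsub_le_iff_right]
    have h6 : μ (⋃ n, f n) ≤ ε + ∑ k ∈ F, μ (f k) := by
      rw [← tsub_le_iff_left]
      exact hF.le
    exact h6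

variable {N : Type} (pc : N → Piece μ)

theorem walsh_piece {p : ENNReal} [Fact (1 ≤ p)]
    (Q : Submodule ℝ (Lp ℝ p μ)) (hX : ∀ j, XX pc p j ∈ Q) (n : N) (W : Finset (pc n).I)
    (f : Lp ℝ p μ)
    (hf : f =ᵐ[μ] (pc n).E.indicator fun w => ∏ i ∈ W, chi i (fun k => (pc n).b k w)) : f ∈ Q := by
  classical
  obtain ⟨d, al, hd⟩ := walsh_comb (pc n).P W
  have h1 : f = ∑ j ∈ d.map ⟨Sigma.mk n, sigma_mk_injective⟩,
      (if h : j.1 = n then al (h ▸ j.2) else 0) • XX pc p j := by
    apply Lp.ext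
    refine hf.trans ((sum_coe' pc p _ _).trans (Filter.Eventually.of_forall fun w => ?_)).symm
    simp only
    rw [Finset.sum_map]
    simp only [Function.Embedding.coeFn_mk, dif_pos]
    by_cases hw : w ∈ (pc n).E
    · rw [Set.indicator_of_mem hw, hd]
      refine Finset.sum_congr rfl fun i _ => ?_
      unfold fn
      rw [Set.indicator_of_mem hw]
    · rw [Set.indicator_of_notMem hw]
      refine Finset.sum_eq_zero fun i _ => ?_
      unfold fn
      rw [Set.indicator_of_notMem hw, mul_zero]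
  rw [h1]
  exact Submodule.sum_mem _ fun j _ => Submodule.smul_mem _ _ (hX j)

theorem cyl_piece {p : ENNReal} [Fact (1 ≤ p)] (hp : p ≠ ⊤)
    (Q : Submodule ℝ (Lp ℝ p μ)) (hQ : IsClosed (Q : Set (Lp ℝ p μ)))
    (hX : ∀ j, XX pc p j ∈ Q) (n : N) (T : Set ((pc n).I → Bool)) (hT : MeasurableSet T) :
    ∀ hs : MeasurableSet ((pc n).E ∩ (fun w => (fun k => (pc n).b k w)) ⁻¹' T),
      indicatorConstLp p hs (measure_ne_top μ _) (1 : ℝ) ∈ Q := by
  classical
  set c : Ω → ((pc n).I → Bool) := fun w => (fun k => (pc n).b k w) with hc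
  have hcm : Measurable c := code_meas pc n
  have hmemW : ∀ W : Finset (pc n).I, MemLp ((pc n).E.indicator fun w => ∏ i ∈ W, chi i (c w)) p μ := by
    intro W
    refine MemLp.of_bound (C := 1) ?_ ?_
    · refine Measurable.aestronglyMeasurable (Measurable.indicator
        (Finset.measurable_fun_prod W fun i _ => ?_) (pc n).hE)
      exact (measurable_of_finite (fun b : Bool => if b then (1 : ℝ) else -1)).comp
        ((pc n).fair.meas i)
    · refine Filter.Eventually.of_forall fun w => ?_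
      by_cases hw : w ∈ (pc n).E
      · rw [Set.indicator_of_mem hw, Real.norm_eq_abs, Finset.abs_prod]
        refine (Finset.prod_eq_one fun i _ => ?_).le
        simp only [chi]; split_ifs <;> norm_num
      · rw [Set.indicator_of_notMem hw]; simp
  have hE1 : indicatorConstLp p (pc n).hE (measure_ne_top μ (pc n).E) (1 : ℝ) ∈ Q := by
    refine walsh_piece pc Q hX n ∅ _ ?_
    refine indicatorConstLp_coeFn.trans (Filter.Eventually.of_forall fun w => ?_)
    simp only [Finset.prod_empty]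
  induction T, hT using MeasurableSpace.induction_on_inter
    (generateFrom_measurableCylinders (α := fun _ : (pc n).I => Bool)).symm
    isPiSystem_measurableCylinders with
  | empty =>
    intro hs
    have : indicatorConstLp p hs (measure_ne_top μ _) (1 : ℝ) = 0 := by
      apply Lp.ext
      refine (indicatorConstLp_coeFn.trans (Filter.Eventually.of_forall fun w => ?_)).trans
        (Lp.coeFn_zero ℝ p μ).symm
      simp
    rw [this]
    exact Q.zero_mem
  | basic t ht =>
    intro hs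
    obtain ⟨s, S, _, rfl⟩ := (mem_measurableCylinders _).mp ht
    have hfin : ∀ (T : Finset ((s → Bool) × Finset (pc n).I))
        (co : (s → Bool) × Finset (pc n).I → ℝ),
        ((∑ q ∈ T, co q • (hmemW q.2).toLp _ : Lp ℝ p μ) : Ω → ℝ)
          =ᵐ[μ] fun w => ∑ q ∈ T, co q * ((pc n).E.indicator (fun w => ∏ i ∈ q.2, chi i (c w)) w) := by
      intro T co
      induction T using Finset.induction_on with
      | empty =>
        simp only [Finset.sum_empty]
        exact Lp.coeFn_zero _ _ _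
      | insert q T hq ih =>
        simp only [Finset.sum_insert hq]
        filter_upwards [Lp.coeFn_add (co q • (hmemW q.2).toLp _)
          (∑ q ∈ T, co q • (hmemW q.2).toLp _), ih,
          Lp.coeFn_smul (co q) ((hmemW q.2).toLp _), (hmemW q.2).coeFn_toLp] with w h1 h2 h3 h4
        rw [h1, Pi.add_apply, h2, h3, Pi.smul_apply, h4, smul_eq_mul]
    have hsum : indicatorConstLp p hs (measure_ne_top μ _) (1 : ℝ)
        = ∑ q ∈ ((Finset.univ : Finset (s → Bool)).filter (· ∈ S)) ×ˢ s.powerset,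
          ((2 : ℝ)⁻¹ ^ s.card *
            ∏ i ∈ q.2, (if h : i ∈ s then (if q.1 ⟨i, h⟩ then (1 : ℝ) else -1) else 0))
              • (hmemW q.2).toLp _ := by
      apply Lp.ext
      refine (indicatorConstLp_coeFn).trans (Filter.EventuallyEq.trans ?_ (hfin _ _).symm)
      refine Filter.Eventually.of_forall fun w => ?_
      simp only
      rw [Finset.sum_product]
      simp only
      by_cases hw : w ∈ (pc n).E
      · simp only [Set.indicator_of_mem hw]
        have h6 : ∀ v : s → Bool, ∑ W ∈ s.powerset, ((2 : ℝ)⁻¹ ^ s.card *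
              ∏ i ∈ W, (if h : i ∈ s then (if v ⟨i, h⟩ then (1 : ℝ) else -1) else 0))
                * ∏ i ∈ W, chi i (c w) = if s.restrict (c w) = v then 1 else 0 := by
          intro v
          exact (point_comb s v (c w)).symm
        rw [Finset.sum_congr rfl fun v _ => h6 v, Finset.sum_ite_eq]
        simp only [Set.indicator, Set.mem_inter_iff, hw, true_and, Set.mem_preimage, mem_cylinder,
          Finset.mem_filter, Finset.mem_univ]
      · simp only [Set.indicator_of_notMem hw, mul_zero, Finset.sum_const_zero]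
        rw [Set.indicator_of_notMem]
        exact fun h => hw h.1
    rw [hsum]
    refine Submodule.sum_mem _ fun q _ => Submodule.smul_mem _ _ ?_
    exact walsh_piece pc Q hX n q.2 _ (hmemW q.2).coeFn_toLp
  | compl t ht ih =>
    intro hs
    have hset : (pc n).E ∩ c ⁻¹' tᶜ = (pc n).E \ ((pc n).E ∩ c ⁻¹' t) := by
      ext w
      simp only [Set.mem_inter_iff, Set.mem_preimage, Set.mem_compl_iff, Set.mem_sdiff, not_and]
      tauto
    have h1 := ind_diff Q (pc n).hE ((pc n).hE.inter (hcm ht)) Set.inter_subset_left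
      ((pc n).hE.diff ((pc n).hE.inter (hcm ht))) hE1 (ih _)
    convert h1 using 2
  | iUnion f hdisj hf ih =>
    intro hs
    refine ind_iUnion hp Q hQ (fun k => (pc n).E ∩ c ⁻¹' f k)
      (fun k => (pc n).hE.inter (hcm (hf k))) ?_ (fun k => ih k _) hs ?_
    · intro i j hij
      refine Set.disjoint_left.mpr ?_
      rintro w ⟨_, h1⟩ ⟨_, h2⟩
      exact Set.disjoint_left.mp (hdisj hij) h1 h2
    · have : (⋃ k, (pc n).E ∩ c ⁻¹' f k) = (pc n).E ∩ c ⁻¹' (⋃ k, f k) := by
        rw [Set.preimage_iUnion, Set.inter_iUnion]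
      rw [this, symmDiff_self]
      simp

theorem sig_univ {I : Type*} (b : I → Ω → Bool) :
    sig b Set.univ = MeasurableSpace.comap (fun w => (fun k => b k w : I → Bool)) MeasurableSpace.pi := by
  unfold sig MeasurableSpace.pi
  rw [MeasurableSpace.comap_iSup]
  simp only [Set.mem_univ, iSup_pos, MeasurableSpace.comap_comp]
  rfl

theorem complete {p : ENNReal} [Fact (1 ≤ p)] (hp : p ≠ ⊤) [Countable N]
    (hdisj : Pairwise (Function.onFun Disjoint fun n => (pc n).E))
    (hcov : μ (⋃ n, (pc n).E)ᶜ = 0)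
    (Q : Submodule ℝ (Lp ℝ p μ)) (hQ : IsClosed (Q : Set (Lp ℝ p μ)))
    (hX : ∀ j, XX pc p j ∈ Q) : Q = ⊤ := by
  have h1 : ∀ (n : N) (A : Set Ω) (hA : MeasurableSet A), A ⊆ (pc n).E →
      indicatorConstLp p hA (measure_ne_top μ A) (1 : ℝ) ∈ Q := by
    intro n A hA hAE
    refine approx hp Q hQ hA fun ε hε => ?_
    obtain ⟨A', hA', hm⟩ := (pc n).gen A hA hAE ε hε
    rw [sig_univ] at hA'
    obtain ⟨T, hT, rfl⟩ := hA'
    have hms : MeasurableSet ((pc n).E ∩ (fun w => (fun k => (pc n).b k w)) ⁻¹' T) :=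
      (pc n).hE.inter (code_meas pc n hT)
    refine ⟨_, hms, cyl_piece pc hp Q hQ hX n T hT hms, ?_⟩
    rw [symmDiff_comm]
    exact hm
  have h2 : ∀ (A : Set Ω) (hA : MeasurableSet A),
      indicatorConstLp p hA (measure_ne_top μ A) (1 : ℝ) ∈ Q := by
    intro A hA
    refine ind_iUnion hp Q hQ (fun n => A ∩ (pc n).E) (fun n => hA.inter (pc n).hE) ?_
      (fun n => h1 n _ _ Set.inter_subset_right) hA ?_
    · intro i j hij
      refine Set.disjoint_left.mpr ?_
      rintro w ⟨_, h1⟩ ⟨_, h2⟩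
      exact Set.disjoint_left.mp (hdisj hij) h1 h2
    · refine measure_mono_null ?_ hcov
      intro w hw
      simp only [Set.mem_symmDiff, Set.mem_iUnion, Set.mem_inter_iff, Set.mem_compl_iff] at hw ⊢
      rcases hw with ⟨⟨i, h3, h4⟩, h5⟩ | ⟨h3, h4⟩
      · exact absurd h3 h5
      · rintro ⟨i, hi⟩
        exact h4 ⟨i, h3, hi⟩
  rw [eq_top_iff]
  intro f _
  refine Lp.induction hp (motive := fun f => f ∈ Q) ?_ ?_ hQ f
  · intro c s hs hμs
    have h3 : (Lp.simpleFunc.indicatorConst p hs hμs.ne c : Lp ℝ p μ)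
        = c • indicatorConstLp p hs (measure_ne_top μ s) (1 : ℝ) := by
      rw [Lp.simpleFunc.coe_indicatorConst]
      apply Lp.ext
      filter_upwards [indicatorConstLp_coeFn (p := p) (hs := hs)
        (hμs := measure_ne_top μ s) (c := (1 : ℝ)),
        indicatorConstLp_coeFn (p := p) (hs := hs) (hμs := hμs.ne) (c := c),
        Lp.coeFn_smul c (indicatorConstLp p hs (measure_ne_top μ s) (1 : ℝ))] with w h1 h2 h3
      rw [h2, h3, Pi.smul_apply, h1]
      by_cases hw : w ∈ s
      · simp [hw]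
      · simp [hw]
    rw [h3]
    exact Q.smul_mem _ (h2 s hs)
  · intro f g hf hg _ h1 h2
    exact Q.add_mem h1 h2

/-- the basis statement from a decomposition into pieces -/
theorem basis {p : ENNReal} [Fact (1 ≤ p)] (hp : p ≠ ⊤) {C : ℝ} (hC : Core p.toReal C)
    [Countable N] (hdisj : Pairwise (Function.onFun Disjoint fun n => (pc n).E))
    (hcov : μ (⋃ n, (pc n).E)ᶜ = 0) (x : Lp ℝ p μ) :
    ∃! a : JJ pc → ℝ, HasSum (fun j => a j • XX pc p j) x := by
  have hp0 : p ≠ 0 := (lt_of_lt_of_le zero_lt_one Fact.out).ne'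
  refine expansion (XX pc p) (XX_ne_zero pc hp0) ?_ (C ^ (p.toReal)⁻¹)
    (fun d a ep hep => global_norm pc hp hC hdisj d a ep hep) x
  exact complete pc hp hdisj hcov _ (Submodule.isClosed_topologicalClosure _)
    (fun j => Submodule.le_topologicalClosure _ (Submodule.subset_span ⟨j, rfl⟩))

end H60Mah
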